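import Pool.Agent.H51.RAlt

namespace Pool.Agent.Results.MP_c4a975_al.MinIdealQ1
open Pool.Agent.H51.RAltDefs

/-- Some right alternative ring has a minimal ideal that is neither simple as a ring nor
solvable. -/
theorem result : ¬ ∀ (R : Type) [NonUnitalNonAssocRing R], (∀ x y : R, (x * y) * y = x * (y * y)) →
    ∀ I : AddSubgroup R, IsMinimalIdeal I → IsSimpleAsRing I ∨ IsSolvable I := fun h =>
  (h _ Pool.Agent.H51.RAlt.ralt _ Pool.Agent.H51.RAlt.minimal).elim
    Pool.Agent.H51.RAlt.not_simple Pool.Agent.H51.RAlt.not_solvable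

end Pool.Agent.Results.MP_c4a975_al.MinIdealQ1
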